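import Pool.Agent.Ep.Nrm
import Pool.Agent.Ep.Ext

/-!
# Regular holonomic modules over `E_p` and `hat E_p`

`X` is a complex manifold of dimension `d + 1` and `p` a point of `T*X` outside the zero section.
We choose coordinates `x_1, …, x_d, t` near the projection of `p` with `p = (0; dt)`; dual
coordinates `ξ_i`, `τ`. Near `p` a homogeneous function of degree `-j` is `a(x, t, y) s^j` with
`s = 1/τ`, `y_i = ξ_i/τ`. An operator of order `≤ 0` is given by its total symbol
`∑_j a_j(x, t, y) s^j`; the product of operators is the Leibniz formula (`Ep.comp`).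

* `Ep.Op d`: the ring of all total symbols, with the Leibniz product.
* `Ep.hatE d`, `Ep.micE d`: the stalks at `p` of `hat E_X(0)` and `E_X(0)`.

`s = ∂_t⁻¹` is normal and not a zero divisor in these rings and `hat E_p = hat E_p(0)[∂_t]`,
`E_p = E_p(0)[∂_t]`, so a module over `hat E_p` (over `E_p`) is the same as a module over
`hat E_p(0)` (over `E_p(0)`) on which `s` is bijective.
-/

set_option autoImplicit false

namespace Pool.Agent.Epub

open MvPowerSeries
open Pool.Agent.Ep (Var Sym Op op vs IsMicro IsFormal hatE micE Ext)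

/-- a ring of operators of order `≤ 0` at `p`; only `hat d` and `mic d` are used -/
structure Ord0 (d : ℕ) where
  /-- the operators -/
  ring : Subring (Op d)
  le : micE d ≤ ring

/-- `hat E_p(0)`: formal microdifferential operators of order `≤ 0` -/
def hat (d : ℕ) : Ord0 d := ⟨hatE d, Pool.Agent.Ep.micE_le⟩

/-- `E_p(0)`: microdifferential operators of order `≤ 0` -/
def mic (d : ℕ) : Ord0 d := ⟨micE d, le_rfl⟩

/-- the inclusion of `E_p(0)` in `hat E_p(0)` -/
noncomputable def incl (d : ℕ) : (mic d).ring →+* (hat d).ring :=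
  Subring.inclusion Pool.Agent.Ep.micE_le

/-- The ring `ℂ{x, t, y}` of germs at `p` of holomorphic functions which are homogeneous of degree
`0`: the convergent power series in `x`, `t`, `y`. -/
def Conv (d : ℕ) : Subring (Sym d) where
  carrier := {f | (∃ C R : ℝ, ∀ m, ‖coeff m f‖ ≤ C * R ^ m.degree) ∧
    ∀ m, m none ≠ 0 → coeff m f = 0}
  mul_mem' := by
    classical
    rintro f g ⟨⟨C, R, hf⟩, hf0⟩ ⟨⟨C', R', hg⟩, hg0⟩
    refine ⟨?_, fun m hm => ?_⟩
    · refine ⟨|C| * |C'| * 2 ^ Fintype.card (Option (Var d)),
        2 * max |R| |R'|, fun m => ?_⟩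
      have h1 : ∀ p ∈ Finset.HasAntidiagonal.antidiagonal m,
          ‖coeff p.1 f * coeff p.2 g‖ ≤ |C| * |C'| * max |R| |R'| ^ m.degree := by
        intro p hp
        rw [Finset.HasAntidiagonal.mem_antidiagonal] at hp
        rw [norm_mul, ← hp, map_add, pow_add]
        have h2 : ‖coeff p.1 f‖ ≤ |C| * max |R| |R'| ^ p.1.degree := by
          refine (hf p.1).trans ((le_abs_self _).trans ?_)
          rw [abs_mul, abs_pow]
          exact mul_le_mul_of_nonneg_left (pow_le_pow_left₀ (abs_nonneg _) (le_max_left _ _) _)
            (abs_nonneg _)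
        have h3 : ‖coeff p.2 g‖ ≤ |C'| * max |R| |R'| ^ p.2.degree := by
          refine (hg p.2).trans ((le_abs_self _).trans ?_)
          rw [abs_mul, abs_pow]
          exact mul_le_mul_of_nonneg_left (pow_le_pow_left₀ (abs_nonneg _) (le_max_right _ _) _)
            (abs_nonneg _)
        calc ‖coeff p.1 f‖ * ‖coeff p.2 g‖
            ≤ (|C| * max |R| |R'| ^ p.1.degree) * (|C'| * max |R| |R'| ^ p.2.degree) :=
              mul_le_mul h2 h3 (norm_nonneg _) (by positivity)
          _ = _ := by ring
      have h4 : ((Finset.HasAntidiagonal.antidiagonal m).card : ℝ)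
          ≤ 2 ^ Fintype.card (Option (Var d)) * 2 ^ m.degree := by
        have h5 : (Finset.HasAntidiagonal.antidiagonal m).card ≤ (Finset.Iic m).card := by
          refine Finset.card_le_card_of_injOn Prod.fst ?_ ?_
          · intro p hp
            rw [Finset.mem_coe, Finset.HasAntidiagonal.mem_antidiagonal] at hp
            rw [Finset.mem_coe, Finset.mem_Iic, ← hp]
            exact le_self_add
          · intro p hp q hq hpq
            rw [Finset.mem_coe, Finset.HasAntidiagonal.mem_antidiagonal] at hp hq
            refine Prod.ext hpq ?_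
            have h6 := hp.trans hq.symm
            rw [hpq] at h6
            exact add_left_cancel h6
        have h7 : (Finset.Iic m).card = ∏ i, (m i + 1) := by
          rw [Finsupp.card_Iic]
          refine Finset.prod_subset_one_on_sdiff (Finset.subset_univ _) ?_ ?_
          · intro i hi
            rw [Finset.mem_sdiff, Finsupp.mem_support_iff, not_not] at hi
            simp [hi.2]
          · intro i _
            simp
        have h8 : (∏ i, (m i + 1) : ℕ) ≤ ∏ i, 2 ^ (m i) := by
          refine Finset.prod_le_prod' fun i _ => ?_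
          exact Nat.lt_two_pow_self
        have h9 : (∏ i, 2 ^ (m i) : ℕ) = 2 ^ m.degree := by
          rw [Finset.prod_pow_eq_pow_sum, Finsupp.degree_eq_sum]
        have h10 : (Finset.HasAntidiagonal.antidiagonal m).card ≤ 2 ^ m.degree := by
          rw [← h9]
          exact h5.trans (h7.le.trans h8)
        have h11 : ((Finset.HasAntidiagonal.antidiagonal m).card : ℝ) ≤ 2 ^ m.degree := by
          exact_mod_cast h10
        refine h11.trans (le_mul_of_one_le_left (by positivity) (one_le_pow₀ (by norm_num)))
      rw [coeff_mul]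
      refine (norm_sum_le _ _).trans ((Finset.sum_le_sum h1).trans ?_)
      rw [Finset.sum_const, nsmul_eq_mul]
      calc ((Finset.HasAntidiagonal.antidiagonal m).card : ℝ) * (|C| * |C'| * max |R| |R'| ^ m.degree)
          ≤ (2 ^ Fintype.card (Option (Var d)) * 2 ^ m.degree) *
            (|C| * |C'| * max |R| |R'| ^ m.degree) :=
            mul_le_mul_of_nonneg_right h4 (by positivity)
        _ = _ := by rw [mul_pow]; ring
    · rw [coeff_mul]
      refine Finset.sum_eq_zero fun p hp => ?_
      rw [Finset.HasAntidiagonal.mem_antidiagonal] at hp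
      by_cases h : p.1 none = 0
      · have h2 : p.2 none ≠ 0 := by
          intro h3
          apply hm
          rw [← hp, Finsupp.add_apply, h, h3]
        rw [hg0 _ h2, mul_zero]
      · rw [hf0 _ h, zero_mul]
  one_mem' := by
    classical
    refine ⟨⟨1, 1, fun m => ?_⟩, fun m hm => ?_⟩
    · rw [coeff_one]
      split_ifs <;> simp
    · rw [coeff_one, if_neg]
      rintro rfl
      exact hm rfl
  add_mem' := by
    rintro f g ⟨⟨C, R, hf⟩, hf0⟩ ⟨⟨C', R', hg⟩, hg0⟩
    refine ⟨⟨|C| + |C'|, max |R| |R'|, fun m => ?_⟩, fun m hm => ?_⟩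
    · rw [map_add, add_mul]
      refine (norm_add_le _ _).trans (add_le_add ?_ ?_)
      · refine (hf m).trans ((le_abs_self _).trans ?_)
        rw [abs_mul, abs_pow]
        exact mul_le_mul_of_nonneg_left (pow_le_pow_left₀ (abs_nonneg _) (le_max_left _ _) _)
          (abs_nonneg _)
      · refine (hg m).trans ((le_abs_self _).trans ?_)
        rw [abs_mul, abs_pow]
        exact mul_le_mul_of_nonneg_left (pow_le_pow_left₀ (abs_nonneg _) (le_max_right _ _) _)
          (abs_nonneg _)
    · rw [map_add, hf0 m hm, hg0 m hm, add_zero]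
  zero_mem' := ⟨⟨0, 0, fun m => by simp⟩, fun m _ => by simp⟩
  neg_mem' := by
    rintro f ⟨⟨C, R, hf⟩, hf0⟩
    exact ⟨⟨C, R, fun m => by rw [map_neg, norm_neg]; exact hf m⟩,
      fun m hm => by rw [map_neg, hf0 m hm, neg_zero]⟩

namespace Ord0

variable {d : ℕ} (A : Ord0 d)

/-- the operator `s = ∂_t⁻¹` -/
noncomputable def s : A.ring := ⟨op vs, A.le (Pool.Agent.Ep.isMicro_X none)⟩

variable (L : Type) [AddCommGroup L] [Module A.ring L]

/-- `Q L ⊆ s L`; equivalently `P L ⊆ L` for the operator `P = s⁻¹ Q` of order `≤ 1` -/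
def Kills (Q : A.ring) : Prop := ∀ u : L, ∃ w : L, Q • u = A.s • w

/-- `J_Λ L ⊆ L`, where `Λ` is the support of `L / s L`: by the Nullstellensatz the principal symbol
of `Q` vanishes on `Λ` if and only if some power of `Q` maps `L` to `s L`. -/
def Regular : Prop := ∀ Q : A.ring, (∃ n : ℕ, A.Kills L (Q ^ n)) → A.Kills L Q

/-- the ideal of the support `Λ` of `L / s L`: generated by the symbols of order `0` which
annihilate `L / s L` -/
noncomputable def ann : Ideal (Conv d) :=
  Ideal.span {f | ∃ h : op (f : Sym d) ∈ A.ring, A.Kills L ⟨op (f : Sym d), h⟩}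

/-- The support of `L / s L` has dimension at most `d` in the space of the coordinates `x`, `t`, `y`
(the projective cotangent bundle, of dimension `2 d + 1`): in `T*X` the support has dimension at
most `d + 1 = dim X`. -/
def Holonomic : Prop := ringKrullDim (Conv d ⧸ A.ann L) ≤ d

/-- `L` is a finitely generated module over the operators of order `≤ 0` without `s`-torsion, its
support is holonomic and `J_Λ L ⊆ L` -/
structure Lattice : Prop where
  fin : Module.Finite A.ring L
  sinj : ∀ u : L, A.s • u = 0 → u = 0
  hol : A.Holonomic L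
  reg : A.Regular L

/-- A regular holonomic module `M` over `hat E_p` (for `A = hat d`) or `E_p` (for `A = mic d`):
`s = ∂_t⁻¹` is bijective on `M`, and `M` contains a lattice which generates it. -/
structure RegHol (M : Type) [AddCommGroup M] [Module A.ring M] : Prop where
  bij : Function.Bijective fun u : M => A.s • u
  lat : ∃ L : Submodule A.ring M, A.Lattice L ∧ ∀ u : M, ∃ k : ℕ, A.s ^ k • u ∈ L

end Ord0

end Pool.Agent.Epub
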