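import Pool.Agent.Epub.Defs
import Pool.Agent.Ep.Gee

/-!
# Regular holonomic modules over `E_p` and `hat E_p`: the theorem
-/

set_option autoImplicit false

namespace Pool.Agent.Epub

open MvPowerSeries
open Pool.Agent.Ep (Var Sym Op op vs IsMicro IsFormal hatE micE Ext Gr OpRing Formal Micro)

variable {d : ℕ}

lemma mem_gr_iff (f : Sym d) : f ∈ Gr d ↔ f ∈ Conv d := by
  constructor
  · rintro ⟨⟨R, hR, H⟩, h0⟩
    obtain ⟨C, hC⟩ := H 0
    refine ⟨⟨|C|, R, fun m => ?_⟩, h0⟩
    by_cases hm : m none = 0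
    · exact (hC m hm).trans (mul_le_mul_of_nonneg_right (le_abs_self _) (by positivity))
    · rw [h0 m hm, norm_zero]
      positivity
  · rintro ⟨⟨C, R, H⟩, h0⟩
    refine ⟨⟨max |R| 1, by positivity, fun j => ⟨|C|, fun m _ => (H m).trans ?_⟩⟩, h0⟩
    refine (le_abs_self _).trans ?_
    rw [abs_mul, abs_pow]
    exact mul_le_mul_of_nonneg_left (pow_le_pow_left₀ (abs_nonneg _) (le_max_left _ _) _)
      (abs_nonneg _)

/-- the two descriptions of the ring of convergent power series -/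
noncomputable def convEquiv (d : ℕ) : Conv d ≃+* Gr d where
  toFun f := ⟨f.1, (mem_gr_iff f.1).2 f.2⟩
  invFun f := ⟨f.1, (mem_gr_iff f.1).1 f.2⟩
  left_inv _ := rfl
  right_inv _ := rfl
  map_mul' _ _ := rfl
  map_add' _ _ := rfl

/-- the data of `Ord0` which come from an `OpRing` -/
abbrev ofOp (A : OpRing d) : Ord0 d := ⟨A.ring, A.le⟩

lemma ofOp_formal : ofOp (Formal d) = hat d := rfl
lemma ofOp_micro : ofOp (Micro d) = mic d := rfl

section

variable (A : OpRing d) (L : Type) [AddCommGroup L] [Module A.ring L]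

lemma ann_eq : (A.annI L).comap (convEquiv d).toRingHom =
    (ofOp A).ann L := by
  apply le_antisymm
  · intro f hf
    exact Ideal.subset_span ⟨A.le (Pool.Agent.Ep.isMicro_gr (convEquiv d f)), hf⟩
  · refine Ideal.span_le.2 ?_
    rintro f ⟨h, hf⟩
    exact hf

lemma hol_iff : A.Holonomic L ↔
    (ofOp A).Holonomic L := by
  have h : ringKrullDim (Gr d ⧸ A.annI L) = ringKrullDim (Conv d ⧸
      (ofOp A).ann L) := by
    refine ringKrullDim_eq_of_ringEquiv ?_
    refine (Ideal.quotientEquiv _ _ (convEquiv d).symm ?_)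
    refine (ann_eq A L).symm.trans ?_
    ext f
    rw [Ideal.mem_comap]
    constructor
    · intro hf
      exact (Ideal.mem_map_of_equiv (convEquiv d).symm f).2
        ⟨convEquiv d f, hf, (convEquiv d).symm_apply_apply f⟩
    · intro hf
      obtain ⟨g, hg, rfl⟩ := (Ideal.mem_map_of_equiv (convEquiv d).symm f).1 hf
      exact hg
  show ringKrullDim (Gr d ⧸ A.annI L) ≤ d ↔ _
  rw [h]
  rfl

lemma lattice_iff : A.HolLattice L ↔
    (ofOp A).Lattice L :=
  ⟨fun h => ⟨h.fin, h.sinj, (hol_iff A L).1 h.hol, h.reg⟩,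
    fun h => ⟨h.fin, h.sinj, (hol_iff A L).2 h.hol, h.reg⟩⟩

lemma regHol_iff : A.RegHolM L ↔
    (ofOp A).RegHol L := by
  constructor
  · rintro ⟨hb, N, hN, h⟩
    exact ⟨hb, N, (lattice_iff A N).1 hN, h⟩
  · rintro ⟨hb, N, hN, h⟩
    exact ⟨hb, N, (lattice_iff A N).2 hN, h⟩

end

/-- Every regular holonomic `hat E_p`-module is the extension of scalars of a regular holonomic
`E_p`-module. -/
theorem main {M : Type} [AddCommGroup M] [Module (hat d).ring M] (h : (hat d).RegHol M) :
    ∃ (N : Type) (_ : AddCommGroup N) (_ : Module (mic d).ring N),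
      (mic d).RegHol N ∧ Nonempty (Ext (incl d) N ≃ₗ[(hat d).ring] M) := by
  let _ : Module (Formal d).ring M := inferInstanceAs (Module (hat d).ring M)
  obtain ⟨N, i1, i2, h1, h2⟩ := Pool.Agent.Ep.exists_ext_hol_M ((regHol_iff (Formal d) M).2 h)
  exact ⟨N, i1, i2, (regHol_iff (Micro d) N).1 h1, h2⟩

end Pool.Agent.Epub
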